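import Pool.Agent.Lib.MP_b9b22b_co.Spectral
import Pool.Agent.Lib.MP_b9b22b_co.Defs

/-!
Agreement graphs: the vertices are points of `[q] ^ s`, and whether two points are adjacent
depends only on the set of coordinates in which they agree.  The quadratic form of such a graph is
a combination of sums of squares of marginals.
-/

set_option autoImplicit false

namespace Pool.Agent.Lib.MP_b9b22b_co.Few.H91

open Finset Module

variable {n q s : ℕ}

/-- restriction of a point to a set of coordinates -/
def rest (u : Fin n → Fin s → Fin q) (T : Finset (Fin s)) (x : Fin n) : T → Fin q :=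
  fun i => u x i

/-- the marginal of a vector on a set of coordinates -/
noncomputable def marg (u : Fin n → Fin s → Fin q) (T : Finset (Fin s)) :
    EuclideanSpace ℝ (Fin n) →ₗ[ℝ] ((T → Fin q) → ℝ) where
  toFun w z := ∑ x, if rest u T x = z then w x else 0
  map_add' w w' := by
    funext z
    rw [Pi.add_apply, ← sum_add_distrib]
    refine sum_congr rfl fun x _ => ?_
    split_ifs <;> simp
  map_smul' c w := by
    funext z
    rw [Pi.smul_apply, smul_eq_mul, mul_sum]
    refine sum_congr rfl fun x _ => ?_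
    split_ifs <;> simp

theorem marg_apply (u : Fin n → Fin s → Fin q) (T : Finset (Fin s))
    (w : EuclideanSpace ℝ (Fin n)) (z : T → Fin q) :
    marg u T w z = ∑ x, if rest u T x = z then w x else 0 := rfl

/-- the set of coordinates in which two points agree -/
def agree (u : Fin n → Fin s → Fin q) (x y : Fin n) : Finset (Fin s) :=
  univ.filter fun i => u x i = u y i

theorem subset_agree (u : Fin n → Fin s → Fin q) (T : Finset (Fin s)) (x y : Fin n) :
    T ⊆ agree u x y ↔ rest u T x = rest u T y := by
  constructor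
  · intro h
    funext i
    have := h i.2
    simpa [agree, rest] using this
  · intro h i hi
    have := congrFun h ⟨i, hi⟩
    simpa [agree, rest] using this

theorem agree_comm (u : Fin n → Fin s → Fin q) (x y : Fin n) : agree u x y = agree u y x := by
  ext i
  simp [agree, eq_comm]

theorem agree_self (u : Fin n → Fin s → Fin q) (x : Fin n) : agree u x x = univ := by
  simp [agree]

theorem sum_marg (u : Fin n → Fin s → Fin q) (T : Finset (Fin s))
    (w : EuclideanSpace ℝ (Fin n)) : ∑ z, marg u T w z = ∑ x, w x := by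
  simp_rw [marg_apply]
  rw [sum_comm]
  refine sum_congr rfl fun x _ => ?_
  simp

theorem sum_marg_sq (u : Fin n → Fin s → Fin q) (T : Finset (Fin s))
    (w : EuclideanSpace ℝ (Fin n)) :
    ∑ z, marg u T w z ^ 2 = ∑ x, ∑ y, (if T ⊆ agree u x y then w x * w y else 0) := by
  have h1 : ∀ z, marg u T w z ^ 2 =
      ∑ x, ∑ y, (if rest u T x = z then (if rest u T y = z then w x * w y else 0) else 0) := by
    intro z
    rw [sq, marg_apply, sum_mul_sum]
    refine sum_congr rfl fun x _ => sum_congr rfl fun y _ => ?_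
    split_ifs <;> simp
  simp_rw [h1]
  rw [sum_comm]
  refine sum_congr rfl fun x _ => ?_
  rw [sum_comm]
  refine sum_congr rfl fun y _ => ?_
  rw [sum_ite_eq univ (rest u T x)]
  simp only [mem_univ, if_true]
  by_cases h : rest u T x = rest u T y
  · rw [if_pos h.symm, if_pos ((subset_agree u T x y).2 h)]
  · rw [if_neg (fun h' => h h'.symm), if_neg (fun h' => h ((subset_agree u T x y).1 h'))]

/-- the full marginal of an injective family is the vector itself -/
theorem sum_marg_sq_univ (u : Fin n → Fin s → Fin q) (hu : Function.Injective u)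
    (w : EuclideanSpace ℝ (Fin n)) : ∑ z, marg u univ w z ^ 2 = ∑ x, w x ^ 2 := by
  rw [sum_marg_sq]
  refine sum_congr rfl fun x _ => ?_
  have h1 : ∀ y, (univ ⊆ agree u x y) ↔ x = y := by
    intro y
    constructor
    · intro h
      refine hu (funext fun i => ?_)
      have := h (mem_univ i)
      simpa [agree] using this
    · rintro rfl
      rw [agree_self]
  simp_rw [h1]
  simp [sq]

/-- A family of integer weights `c j` on sets `T j` of coordinates, such that
`S ↦ ∑ j, [T j ⊆ S] c j` takes only the values `0` and `1`, is `0` at the full set, and such that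
the full set has positive weight. -/
structure Pattern (s m : ℕ) where
  /-- the sets of coordinates -/
  T : Fin m → Finset (Fin s)
  /-- the weights -/
  c : Fin m → ℤ
  zero_one : ∀ S : Finset (Fin s), (∑ j, if T j ⊆ S then c j else 0) = 0 ∨
    (∑ j, if T j ⊆ S then c j else 0) = 1
  top_zero : (∑ j, if T j ⊆ univ then c j else 0) = 0
  top : Fin m
  T_top : T top = univ
  c_top : 1 ≤ c top
  bot : Fin m
  c_bot : c bot < 0

variable {m : ℕ}

namespace Pattern

/-- the value of a pattern at a set of coordinates -/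
def val (P : Pattern s m) (S : Finset (Fin s)) : ℤ := ∑ j, if P.T j ⊆ S then P.c j else 0

/-- the agreement graph of a pattern -/
def graph (P : Pattern s m) (u : Fin n → Fin s → Fin q) : SimpleGraph (Fin n) where
  Adj x y := P.val (agree u x y) = 1
  symm := ⟨fun x y h => by rw [agree_comm]; exact h⟩
  loopless := ⟨fun x h => by
    rw [agree_self] at h
    have := P.top_zero
    unfold val at h
    omega⟩

open scoped Classical in
theorem adjMatrix_apply (P : Pattern s m) (u : Fin n → Fin s → Fin q) (x y : Fin n) :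
    (P.graph u).adjMatrix ℝ x y = (P.val (agree u x y) : ℝ) := by
  rw [SimpleGraph.adjMatrix_apply]
  have h : (P.graph u).Adj x y ↔ P.val (agree u x y) = 1 := Iff.rfl
  rcases P.zero_one (agree u x y) with h0 | h0
  · have h1 : P.val (agree u x y) = 0 := h0
    rw [if_neg (by rw [h, h1]; norm_num), h1]
    simp
  · have h1 : P.val (agree u x y) = 1 := h0
    rw [if_pos (h.2 h1), h1]
    simp

open scoped Classical in
/-- the quadratic form of an agreement graph -/
theorem form (P : Pattern s m) (u : Fin n → Fin s → Fin q) (w : EuclideanSpace ℝ (Fin n)) :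
    ∑ x, ∑ y, (P.graph u).adjMatrix ℝ x y * (w x * w y) =
      ∑ j, (P.c j : ℝ) * ∑ z, marg u (P.T j) w z ^ 2 := by
  simp_rw [sum_marg_sq, mul_sum]
  rw [sum_comm (s := (univ : Finset (Fin m)))]
  refine sum_congr rfl fun x _ => ?_
  rw [sum_comm (s := (univ : Finset (Fin m)))]
  refine sum_congr rfl fun y _ => ?_
  rw [adjMatrix_apply, val]
  push_cast
  rw [sum_mul]
  refine sum_congr rfl fun j _ => ?_
  split_ifs <;> simp

/-- all marginals with negative weight -/
noncomputable def neg (P : Pattern s m) (u : Fin n → Fin s → Fin q) :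
    EuclideanSpace ℝ (Fin n) →ₗ[ℝ] ((j : {j : Fin m // P.c j < 0}) → (P.T j → Fin q) → ℝ) :=
  LinearMap.pi fun j => marg u (P.T j)

/-- the number of conditions -/
def cost (P : Pattern s m) (q : ℕ) : ℕ := ∑ j, if P.c j < 0 then q ^ (P.T j).card else 0

theorem finrank_ker_ge {W : Type*} [AddCommGroup W] [Module ℝ W] [FiniteDimensional ℝ W]
    (L : EuclideanSpace ℝ (Fin n) →ₗ[ℝ] W) :
    n - finrank ℝ W ≤ finrank ℝ (LinearMap.ker L) := by
  have h1 := L.finrank_range_add_finrank_ker
  have h2 := Submodule.finrank_le (LinearMap.range L)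
  rw [finrank_euclideanSpace, Fintype.card_fin] at h1
  omega

theorem finrank_neg (P : Pattern s m) (q : ℕ) :
    finrank ℝ ((j : {j : Fin m // P.c j < 0}) → (P.T j → Fin q) → ℝ) = P.cost q := by
  rw [finrank_pi_fintype]
  have h1 : ∀ j : {j : Fin m // P.c j < 0},
      finrank ℝ ((P.T j → Fin q) → ℝ) = q ^ (P.T j).card := by
    intro j
    rw [finrank_fintype_fun_eq_card, Fintype.card_fun, Fintype.card_fin, Fintype.card_coe]
  simp_rw [h1]
  rw [cost, ← sum_filter]
  exact (sum_subtype _ (fun j => by simp) fun j => q ^ (P.T j).card).symm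

theorem ker_neg (P : Pattern s m) (u : Fin n → Fin s → Fin q) {w : EuclideanSpace ℝ (Fin n)}
    (hw : w ∈ LinearMap.ker (P.neg u)) (j : Fin m) (hj : P.c j < 0) : marg u (P.T j) w = 0 := by
  rw [LinearMap.mem_ker] at hw
  exact congrFun hw ⟨j, hj⟩

theorem form_ge (P : Pattern s m) (u : Fin n → Fin s → Fin q) (hu : Function.Injective u)
    {w : EuclideanSpace ℝ (Fin n)} (hw : w ∈ LinearMap.ker (P.neg u)) :
    ∑ x, w x ^ 2 ≤ ∑ j, (P.c j : ℝ) * ∑ z, marg u (P.T j) w z ^ 2 := by
  have h0 : ∀ j : Fin m, 0 ≤ (P.c j : ℝ) * ∑ z, marg u (P.T j) w z ^ 2 := by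
    intro j
    rcases lt_or_ge (P.c j) 0 with h | h
    · rw [P.ker_neg u hw j h]
      simp
    · exact mul_nonneg (by exact_mod_cast h) (sum_nonneg fun z _ => sq_nonneg _)
  have h1 := single_le_sum (fun j _ => h0 j) (mem_univ P.top)
  have h2 : ∑ z, marg u (P.T P.top) w z ^ 2 = ∑ x, w x ^ 2 := by
    rw [P.T_top]
    exact sum_marg_sq_univ u hu w
  have h3 : (1 : ℝ) ≤ P.c P.top := by exact_mod_cast P.c_top
  have h4 : 0 ≤ ∑ x, w x ^ 2 := sum_nonneg fun x _ => sq_nonneg _
  refine le_trans ?_ h1
  rw [h2]
  nlinarith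

theorem sum_eq_zero (P : Pattern s m) (u : Fin n → Fin s → Fin q)
    {w : EuclideanSpace ℝ (Fin n)} (hw : w ∈ LinearMap.ker (P.neg u)) : ∑ x, w x = 0 := by
  rw [← sum_marg u (P.T P.bot) w, P.ker_neg u hw P.bot P.c_bot]
  simp

open scoped Classical in
/-- **Agreement graphs have few nonpositive eigenvalues**, and their complements few
eigenvalues `> -2`. -/
theorem lam_ge (P : Pattern s m) {k : ℕ} (hn : n ≤ q ^ s) (hk : P.cost q ≤ k) (hkn : k < n) :
    ∃ G : SimpleGraph (Fin n), 1 ≤ lam G (n - k) ∧ lam Gᶜ (k + 1) ≤ -2 := by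
  obtain ⟨u, hu⟩ : ∃ u : Fin n → Fin s → Fin q, Function.Injective u := by
    have h1 : Fintype.card (Fin n) ≤ Fintype.card (Fin s → Fin q) := by
      rw [Fintype.card_fun, Fintype.card_fin, Fintype.card_fin, Fintype.card_fin]
      exact hn
    obtain ⟨f⟩ := Function.Embedding.nonempty_of_card_le h1
    exact ⟨f, f.injective⟩
  have hfin : finrank ℝ (EuclideanSpace ℝ (Fin n)) = Fintype.card (Fin n) :=
    finrank_euclideanSpace
  have hker : n - k ≤ finrank ℝ (LinearMap.ker (P.neg u)) := by
    have h1 := finrank_ker_ge (P.neg u)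
    rw [P.finrank_neg q] at h1
    omega
  obtain ⟨H, hH⟩ : ∃ H : SimpleGraph (Fin n), H = (P.graph u)ᶜ := ⟨_, rfl⟩
  refine ⟨P.graph u, ?_, ?_⟩
  · have hlt : n - k - 1 < Fintype.card (Fin n) := by rw [Fintype.card_fin]; omega
    unfold lam
    rw [dif_pos hlt]
    have hT : (Matrix.toEuclideanLin ((P.graph u).adjMatrix ℝ)).IsSymmetric :=
      Matrix.isSymmetric_toEuclideanLin_iff.mpr (adj_isHermitian (P.graph u))
    refine le_eigenvalue hT hfin ⟨n - k - 1, hlt⟩ (LinearMap.ker (P.neg u)) ?_ ?_
    · simp only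
      omega
    · intro w hw
      rw [inner_toEuclideanLin, EuclideanSpace.real_norm_sq_eq, one_mul, P.form]
      exact P.form_ge u hu hw
  · rw [← hH]
    have hlt : k + 1 - 1 < Fintype.card (Fin n) := by rw [Fintype.card_fin]; omega
    unfold lam
    rw [dif_pos hlt]
    have hT : (Matrix.toEuclideanLin (H.adjMatrix ℝ)).IsSymmetric :=
      Matrix.isSymmetric_toEuclideanLin_iff.mpr (adj_isHermitian H)
    refine eigenvalue_le hT hfin ⟨k + 1 - 1, hlt⟩ (LinearMap.ker (P.neg u)) ?_ ?_
    · have h2 : Fintype.card (Fin n) = n := Fintype.card_fin n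
      simp only
      omega
    · intro w hw
      rw [inner_toEuclideanLin, EuclideanSpace.real_norm_sq_eq]
      have hA : ∀ x y, H.adjMatrix ℝ x y =
          1 - (if x = y then 1 else 0) - (P.graph u).adjMatrix ℝ x y := by
        intro x y
        have hadj : H.Adj x y ↔ x ≠ y ∧ ¬ (P.graph u).Adj x y := by
          rw [hH, SimpleGraph.compl_adj]
        rw [SimpleGraph.adjMatrix_apply, SimpleGraph.adjMatrix_apply]
        by_cases hxy : x = y
        · subst hxy
          simp
        · by_cases hG : (P.graph u).Adj x y <;> simp [hadj, hxy, hG]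
      have hform : ∑ x, ∑ y, H.adjMatrix ℝ x y * (w x * w y) =
          (∑ x, w x) ^ 2 - ∑ x, w x ^ 2 -
            ∑ x, ∑ y, (P.graph u).adjMatrix ℝ x y * (w x * w y) := by
        rw [sq, sum_mul_sum, ← sum_sub_distrib, ← sum_sub_distrib]
        refine sum_congr rfl fun x _ => ?_
        have h1 : w x ^ 2 = ∑ y, (if x = y then w x * w y else 0) := by
          simp [sq]
        rw [h1, ← sum_sub_distrib, ← sum_sub_distrib]
        refine sum_congr rfl fun y _ => ?_
        rw [hA]
        split_ifs <;> ring
      rw [hform, P.form, P.sum_eq_zero u hw]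
      have := P.form_ge u hu hw
      linarith

end Pattern

end Pool.Agent.Lib.MP_b9b22b_co.Few.H91
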